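import Mathlib
import Pool.Agent.Work.MP_1399e9_co.Final
import Pool.Agent.Work.MP_1399e9_co.Lower

/-!
# The connectivity forcing disjoint cycles of prescribed lengths in tournaments
-/

namespace Pool.Agent.Results.MP_1399e9_co.Exact

open Pool.Agent.Work.MP_1399e9_co

/-- The function of the problem (`Pool.Agent.Work.MP_1399e9_co.f`) is the identity. -/
theorem result : ∀ t : ℕ, 1 ≤ t → f t = (t : ℕ∞) :=
  fun _ ht => le_antisymm (f_le ht) le_f

end Pool.Agent.Results.MP_1399e9_co.Exact
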